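import Pool.Agent.Helper360.Hop.Final

set_option maxHeartbeats 4000000

open Finset

namespace Pool.Agent.Results.MP_b027ec_an.JacobsonRadical

/-- A commutative subspace lattice on the Hilbert space `H`.  Closed subspaces are identified with
their orthogonal projections: it is a set of pairwise commuting orthogonal projections on `H`
which contains `0` and `1`, is closed under meets (`P * Q`) and joins (`P + Q - P * Q`), and is
closed in the strong operator topology. -/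
structure CSL (H : Type*) [NormedAddCommGroup H] [InnerProductSpace ℂ H] [CompleteSpace H] where
  /-- the projections in the lattice -/
  carrier : Set (H →L[ℂ] H)
  proj : ∀ P ∈ carrier, IsStarProjection P
  comm : ∀ P ∈ carrier, ∀ Q ∈ carrier, P * Q = Q * P
  zero_mem : (0 : H →L[ℂ] H) ∈ carrier
  one_mem : (1 : H →L[ℂ] H) ∈ carrier
  inf_mem : ∀ P ∈ carrier, ∀ Q ∈ carrier, P * Q ∈ carrier
  sup_mem : ∀ P ∈ carrier, ∀ Q ∈ carrier, P + Q - P * Q ∈ carrier
  sot_closed : ∀ T : H →L[ℂ] H,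
    (∀ (s : Finset H) (ε : ℝ), 0 < ε → ∃ P ∈ carrier, ∀ x ∈ s, ‖T x - P x‖ < ε) → T ∈ carrier

variable {H : Type*} [NormedAddCommGroup H] [InnerProductSpace ℂ H] [CompleteSpace H]

/-- `Alg L`: the algebra of all bounded operators which map (the range of) every projection in
`L` into itself. -/
def AlgL (L : CSL H) : Subalgebra ℂ (H →L[ℂ] H) where
  carrier := {T | ∀ P ∈ L.carrier, ∀ x : H, P x = x → P (T x) = T x}
  mul_mem' := fun ha hb P hP x hx => ha P hP _ (hb P hP x hx)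
  add_mem' := fun {a b} ha hb P hP x hx => by
    have h1 := ha P hP x hx
    have h2 := hb P hP x hx
    change P (a x + b x) = a x + b x
    rw [map_add, h1, h2]
  algebraMap_mem' := fun r P hP x hx => by
    change P (r • x) = r • x
    rw [map_smul, hx]

/-- `C*(L)`: the C*-algebra generated by the projections in `L` (the norm closure of the
*-algebra generated by `L`). -/
noncomputable def CstarL (L : CSL H) : StarSubalgebra ℂ (H →L[ℂ] H) :=
  (StarAlgebra.adjoin ℂ L.carrier).topologicalClosure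

/-- `E` is an interval of `L`: a projection `M₁ - M₂` with `M₂ ≤ M₁` in `L`. -/
def IsInterval (L : CSL H) (E : H →L[ℂ] H) : Prop :=
  ∃ M₁ ∈ L.carrier, ∃ M₂ ∈ L.carrier, M₁ * M₂ = M₂ ∧ E = M₁ - M₂

/-- The seminorm `‖T‖_φ = inf {‖E T E‖ : E an interval of L, φ(E) = 1}` of a character `φ` of
`C*(L)`; a character is a nonzero multiplicative linear functional, that is, a unital algebra
homomorphism of `C*(L)` into `ℂ`. -/
noncomputable def seminormAt (L : CSL H) (φ : CstarL L →ₐ[ℂ] ℂ)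
    (T : H →L[ℂ] H) : ℝ :=
  sInf {r : ℝ | ∃ E : CstarL L, IsInterval L (E : H →L[ℂ] H) ∧ φ E = 1 ∧
    r = ‖(E : H →L[ℂ] H) * T * (E : H →L[ℂ] H)‖}

/-- The ideal `I_φ = {T ∈ Alg L : ‖T‖_φ = 0}` (as a set). -/
def idealAt (L : CSL H) (φ : CstarL L →ₐ[ℂ] ℂ) : Set (AlgL L) :=
  {T | seminormAt L φ (T : H →L[ℂ] H) = 0}

/-! ### translation to the helper files -/

/-- the same lattice for the helper files -/
def toHop (L : CSL H) : Hop.CSL H :=
  ⟨L.carrier, L.proj, L.comm, L.zero_mem, L.one_mem, L.inf_mem, L.sup_mem, L.sot_closed⟩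

theorem AlgL_eq (L : CSL H) : AlgL L = Hop.algL (toHop L) := by
  apply SetLike.ext
  intro T
  constructor
  · intro h P hP
    have hP' : P * P = P := Hop.mul_self_proj (L.proj P hP)
    ext x
    have h1 : P (P x) = P x := by
      have := congrArg (fun Z : H →L[ℂ] H => Z x) hP'
      exact this
    have h2 := h P hP (P x) h1
    change (1 - P) (T (P x)) = 0
    have h3 : (1 - P) (T (P x)) = T (P x) - P (T (P x)) := rfl
    rw [h3, h2, sub_self]
  · intro h P hP x hx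
    have h1 : (1 - P) * T * P = 0 := h P hP
    have h2 := congrArg (fun Z : H →L[ℂ] H => Z x) h1
    have h3 : T (P x) - P (T (P x)) = 0 := h2
    rw [hx] at h3
    exact (sub_eq_zero.mp h3).symm

theorem mem_CstarL (L : CSL H) {P : H →L[ℂ] H} (hP : P ∈ L.carrier) : P ∈ CstarL L :=
  StarSubalgebra.le_topologicalClosure _ (StarAlgebra.subset_adjoin ℂ _ hP)

theorem CstarL_comm (L : CSL H) (a b : CstarL L) : a * b = b * a := by
  have h1 : (StarAlgebra.adjoin ℂ L.carrier).topologicalClosure ≤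
      StarSubalgebra.centralizer ℂ (StarSubalgebra.centralizer ℂ L.carrier : Set (H →L[ℂ] H)) :=
    StarSubalgebra.topologicalClosure_adjoin_le_centralizer_centralizer ℂ L.carrier
  have h2 : L.carrier ⊆ (StarSubalgebra.centralizer ℂ L.carrier : Set (H →L[ℂ] H)) := by
    intro P hP
    rw [SetLike.mem_coe, StarSubalgebra.mem_centralizer_iff]
    intro Q hQ
    rw [Hop.star_proj (L.proj Q hQ)]
    exact ⟨L.comm Q hQ P hP, L.comm Q hQ P hP⟩
  have ha := (StarSubalgebra.mem_centralizer_iff ℂ).mp (h1 a.2)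
  have hb : (b : H →L[ℂ] H) ∈ (StarSubalgebra.centralizer ℂ L.carrier : Set (H →L[ℂ] H)) := by
    rw [SetLike.mem_coe, StarSubalgebra.mem_centralizer_iff]
    intro P hP
    exact (StarSubalgebra.mem_centralizer_iff ℂ).mp (h1 b.2) P (h2 hP)
  exact Subtype.ext ((ha b hb).1).symm

/-- the value of a character at a projection of `L` -/
theorem char_values (L : CSL H) (χ : CstarL L →ₐ[ℂ] ℂ) {P : H →L[ℂ] H}
    (hP : P ∈ L.carrier) :
    χ ⟨P, mem_CstarL L hP⟩ = 0 ∨ χ ⟨P, mem_CstarL L hP⟩ = 1 := by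
  have h1 : (⟨P, mem_CstarL L hP⟩ : CstarL L) * ⟨P, mem_CstarL L hP⟩ = ⟨P, mem_CstarL L hP⟩ :=
    Subtype.ext (Hop.mul_self_proj (L.proj P hP))
  have h2 := congrArg χ h1
  rw [map_mul] at h2
  have h3 : χ ⟨P, mem_CstarL L hP⟩ * (χ ⟨P, mem_CstarL L hP⟩ - 1) = 0 := by
    rw [mul_sub, h2, mul_one, sub_self]
  rcases mul_eq_zero.mp h3 with h | h
  · exact Or.inl h
  · exact Or.inr (sub_eq_zero.mp h)

/-- if the predicate `φ` is the restriction of the character `χ`, the two seminorms agree -/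
theorem seminorm_eq (L : CSL H) (χ : CstarL L →ₐ[ℂ] ℂ)
    (φ : (H →L[ℂ] H) → Prop)
    (h : ∀ P (hP : P ∈ L.carrier), φ P ↔ χ ⟨P, mem_CstarL L hP⟩ = 1) (T : H →L[ℂ] H) :
    Hop.phiNorm (toHop L) φ T = seminormAt L χ T := by
  have h0 : ∀ (M₁ M₂ : H →L[ℂ] H) (h₁ : M₁ ∈ L.carrier) (h₂ : M₂ ∈ L.carrier) (E : CstarL L),
      (E : H →L[ℂ] H) = M₁ - M₂ → χ E = χ ⟨M₁, mem_CstarL L h₁⟩ - χ ⟨M₂, mem_CstarL L h₂⟩ := by
    intro M₁ M₂ h₁ h₂ E hE
    have : E = ⟨M₁, mem_CstarL L h₁⟩ - ⟨M₂, mem_CstarL L h₂⟩ := Subtype.ext hE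
    rw [this, map_sub]
  unfold Hop.phiNorm seminormAt
  congr 1
  ext r
  constructor
  · rintro ⟨E, ⟨M₁, h₁, M₂, h₂, h12, hf1, hf2, hE⟩, rfl⟩
    have hm : E ∈ CstarL L := by
      rw [hE]; exact sub_mem (mem_CstarL L h₁) (mem_CstarL L h₂)
    refine ⟨⟨E, hm⟩, ⟨M₁, h₁, M₂, h₂, ?_, hE⟩, ?_, rfl⟩
    · rw [L.comm M₁ h₁ M₂ h₂]; exact h12
    · rw [h0 M₁ M₂ h₁ h₂ ⟨E, hm⟩ hE, (h M₁ h₁).mp hf1]
      rcases char_values L χ h₂ with h3 | h3
      · rw [h3, sub_zero]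
      · exact absurd ((h M₂ h₂).mpr h3) hf2
  · rintro ⟨E, ⟨M₁, h₁, M₂, h₂, h12, hE⟩, hχ, rfl⟩
    rw [h0 M₁ M₂ h₁ h₂ E hE] at hχ
    refine ⟨E, ⟨M₁, h₁, M₂, h₂, ?_, ?_, ?_, hE⟩, rfl⟩
    · rw [← L.comm M₁ h₁ M₂ h₂]; exact h12
    · rw [h M₁ h₁]
      rcases char_values L χ h₁ with h3 | h3
      · rw [h3] at hχ
        rcases char_values L χ h₂ with h4 | h4
        · rw [h4] at hχ; norm_num at hχ
        · rw [h4] at hχ; norm_num at hχ
      · exact h3
    · rw [h M₂ h₂]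
      intro h4
      rw [h4] at hχ
      rcases char_values L χ h₁ with h3 | h3
      · rw [h3] at hχ; norm_num at hχ
      · rw [h3] at hχ; norm_num at hχ

/-- restrictions of characters are lattice homomorphisms -/
theorem hom_of_char (L : CSL H) (χ : CstarL L →ₐ[ℂ] ℂ) :
    ∃ φ : (H →L[ℂ] H) → Prop, Hop.IsHom2 (toHop L) φ ∧
      ∀ P (hP : P ∈ L.carrier), φ P ↔ χ ⟨P, mem_CstarL L hP⟩ = 1 := by
  have hφ : ∀ P (hP : P ∈ L.carrier),
      (∃ h : P ∈ L.carrier, χ ⟨P, mem_CstarL L h⟩ = 1) ↔ χ ⟨P, mem_CstarL L hP⟩ = 1 :=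
    fun P hP => ⟨fun ⟨_, h⟩ => h, fun h => ⟨hP, h⟩⟩
  refine ⟨fun P => ∃ h : P ∈ L.carrier, χ ⟨P, mem_CstarL L h⟩ = 1, ⟨?_, ?_, ?_, ?_⟩, hφ⟩
  · refine ⟨L.one_mem, ?_⟩
    have : (⟨1, mem_CstarL L L.one_mem⟩ : CstarL L) = 1 := rfl
    rw [this, map_one]
  · rintro ⟨h, h'⟩
    have : (⟨0, mem_CstarL L L.zero_mem⟩ : CstarL L) = 0 := rfl
    rw [this, map_zero] at h'
    exact zero_ne_one h'
  · intro P hP Q hQ
    have hPQ := L.inf_mem P hP Q hQ
    rw [hφ P hP, hφ Q hQ, hφ (P * Q) hPQ]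
    have h1 : (⟨P * Q, mem_CstarL L hPQ⟩ : CstarL L) =
      ⟨P, mem_CstarL L hP⟩ * ⟨Q, mem_CstarL L hQ⟩ := rfl
    rw [h1, map_mul]
    rcases char_values L χ hP with h3 | h3 <;> rcases char_values L χ hQ with h4 | h4 <;>
      simp [h3, h4]
  · intro P hP Q hQ
    have hPQ := L.sup_mem P hP Q hQ
    rw [hφ P hP, hφ Q hQ, hφ (P + Q - P * Q) hPQ]
    have h1 : (⟨P + Q - P * Q, mem_CstarL L hPQ⟩ : CstarL L) =
      ⟨P, mem_CstarL L hP⟩ + ⟨Q, mem_CstarL L hQ⟩ -
        ⟨P, mem_CstarL L hP⟩ * ⟨Q, mem_CstarL L hQ⟩ := rfl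
    rw [h1, map_sub, map_add, map_mul]
    rcases char_values L χ hP with h3 | h3 <;> rcases char_values L χ hQ with h4 | h4 <;>
      simp [h3, h4]

/-- a character of a commutative Banach algebra which is `1` on a multiplicative set of nonzero
idempotents -/
theorem exists_char {A : Type*} [NormedCommRing A] [NormedAlgebra ℂ A] [CompleteSpace A]
    (X : Set A) (h1 : (1 : A) ∈ X) (hmul : ∀ E ∈ X, ∀ F ∈ X, E * F ∈ X)
    (hidem : ∀ E ∈ X, E * E = E) (hne : ∀ E ∈ X, E ≠ 0) :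
    ∃ χ : A →ₐ[ℂ] ℂ, ∀ E ∈ X, χ E = 1 := by
  let I : Ideal A :=
    { carrier := {a | ∃ E ∈ X, a * E = 0}
      add_mem' := by
        rintro a b ⟨E, hE, h1⟩ ⟨F, hF, h2⟩
        refine ⟨E * F, hmul E hE F hF, ?_⟩
        have e1 : (a + b) * (E * F) = (a * E) * F + (b * F) * E := by ring
        rw [e1, h1, h2, zero_mul, zero_mul, add_zero]
      zero_mem' := ⟨1, h1, zero_mul _⟩
      smul_mem' := by
        rintro c a ⟨E, hE, h1⟩
        refine ⟨E, hE, ?_⟩
        rw [smul_eq_mul, mul_assoc, h1, mul_zero] }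
  have hI : I ≠ ⊤ := by
    intro htop
    have h2 : (1 : A) ∈ I := by rw [htop]; trivial
    obtain ⟨E, hE, h3⟩ := h2
    rw [one_mul] at h3
    exact hne E hE h3
  obtain ⟨M, hM, hIM⟩ := Ideal.exists_le_maximal _ hI
  refine ⟨WeakDual.CharacterSpace.toAlgHom M.toCharacterSpace, fun E hE => ?_⟩
  change M.toCharacterSpace E = 1
  have h2 : M.toCharacterSpace (1 - E) = 0 := by
    apply M.toCharacterSpace_apply_eq_zero_of_mem
    apply hIM
    exact ⟨E, hE, by rw [sub_mul, one_mul, hidem E hE, sub_self]⟩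
  rw [map_sub, map_one, sub_eq_zero] at h2
  exact h2.symm

/-- every lattice homomorphism is the restriction of a character -/
theorem char_of_hom (L : CSL H) (φ : (H →L[ℂ] H) → Prop) (hφ : Hop.IsHom2 (toHop L) φ) :
    ∃ χ : CstarL L →ₐ[ℂ] ℂ,
      ∀ P (hP : P ∈ L.carrier), φ P ↔ χ ⟨P, mem_CstarL L hP⟩ = 1 := by
  let icomm : NormedCommRing (CstarL L) :=
    { (inferInstance : NormedRing (CstarL L)) with mul_comm := CstarL_comm L }
  have hcomplete : CompleteSpace (CstarL L) :=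
    inferInstanceAs (CompleteSpace (StarAlgebra.adjoin ℂ L.carrier).topologicalClosure)
  obtain ⟨χ, hχ⟩ := exists_char (A := CstarL L)
    {E : CstarL L | Hop.InPhi (toHop L) φ (E : H →L[ℂ] H)}
    (Hop.fin_InPhi_one hφ) (fun E hE F hF => Hop.fin_InPhi_mul hφ hE hF)
    (fun E hE => Subtype.ext (Hop.mul_self_proj (Hop.fin_InPhi_proj hE)))
    (by
      rintro E ⟨M₁, h₁, M₂, h₂, -, hf1, hf2, hE⟩ h0
      have h3 : M₁ - M₂ = 0 := by rw [← hE, h0]; rfl
      rw [sub_eq_zero] at h3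
      rw [h3] at hf1
      exact hf2 hf1)
  refine ⟨χ, fun P hP => ⟨fun h => ?_, fun h => ?_⟩⟩
  · exact hχ ⟨P, mem_CstarL L hP⟩ ⟨P, hP, 0, L.zero_mem, by simp, h, hφ.zero, by simp⟩
  · by_contra hn
    have h1 : χ (1 - ⟨P, mem_CstarL L hP⟩) = 1 :=
      hχ (1 - ⟨P, mem_CstarL L hP⟩) ⟨1, L.one_mem, P, hP, by simp, hφ.one, hn, rfl⟩
    rw [map_sub, map_one, h] at h1
    norm_num at h1

/-- **Hopenwasser's conjecture.**  For every commutative subspace lattice `L` on a complex Hilbert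
space, the Jacobson radical of `Alg L` is the intersection of the ideals `I_φ` over all characters
`φ` of `C*(L)`. -/
theorem result (L : CSL H) :
    (Ring.jacobson (AlgL L) : Set (AlgL L)) =
      ⋂ φ : CstarL L →ₐ[ℂ] ℂ, idealAt L φ := by
  have key : ∀ (A : Subalgebra ℂ (H →L[ℂ] H)) (_ : A = Hop.algL (toHop L)) (T : A),
      T ∈ Ring.jacobson A ↔
        ∀ φ, Hop.IsHom2 (toHop L) φ → Hop.phiNorm (toHop L) φ (T : H →L[ℂ] H) = 0 := by
    intro A hA
    subst hA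
    exact Hop.result (toHop L)
  ext T
  rw [SetLike.mem_coe, key (AlgL L) (AlgL_eq L) T, Set.mem_iInter]
  constructor
  · intro h χ
    obtain ⟨φ, hφ, hφχ⟩ := hom_of_char L χ
    change seminormAt L χ (T : H →L[ℂ] H) = 0
    rw [← seminorm_eq L χ φ hφχ]
    exact h φ hφ
  · intro h φ hφ
    obtain ⟨χ, hφχ⟩ := char_of_hom L φ hφ
    rw [seminorm_eq L χ φ hφχ]
    exact h χ

end Pool.Agent.Results.MP_b027ec_an.JacobsonRadical
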