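import Pool.Agent.Helper360.Hop.Final

set_option maxHeartbeats 4000000

open Finset

namespace Pool.Agent.Results.MP_b027ec_an.JacobsonRadicalHom

/-- A commutative subspace lattice on the Hilbert space `H`.  Closed subspaces are identified with
their orthogonal projections: it is a set of pairwise commuting orthogonal projections on `H`
which contains `0` and `1`, is closed under meets (`P * Q`) and joins (`P + Q - P * Q`), and is
closed in the strong operator topology. -/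
structure CSL (H : Type*) [NormedAddCommGroup H] [InnerProductSpace ℂ H] [CompleteSpace H] where
  /-- the projections in the lattice -/
  carrier : Set (H →L[ℂ] H)
  proj : ∀ P ∈ carrier, IsStarProjection P
  comm : ∀ P ∈ carrier, ∀ Q ∈ carrier, P * Q = Q * P
  zero_mem : (0 : H →L[ℂ] H) ∈ carrier
  one_mem : (1 : H →L[ℂ] H) ∈ carrier
  inf_mem : ∀ P ∈ carrier, ∀ Q ∈ carrier, P * Q ∈ carrier
  sup_mem : ∀ P ∈ carrier, ∀ Q ∈ carrier, P + Q - P * Q ∈ carrier
  sot_closed : ∀ T : H →L[ℂ] H,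
    (∀ (s : Finset H) (ε : ℝ), 0 < ε → ∃ P ∈ carrier, ∀ x ∈ s, ‖T x - P x‖ < ε) → T ∈ carrier

variable {H : Type*} [NormedAddCommGroup H] [InnerProductSpace ℂ H] [CompleteSpace H]

/-- `Alg L`: the algebra of all bounded operators `T` with `T M ⊆ M` for every `M` in `L`. -/
def AlgL (L : CSL H) : Subalgebra ℂ (H →L[ℂ] H) where
  carrier := {T | ∀ P ∈ L.carrier, ∀ x : H, P x = x → P (T x) = T x}
  mul_mem' := fun ha hb P hP x hx => ha P hP _ (hb P hP x hx)
  add_mem' := fun {a b} ha hb P hP x hx => by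
    have h1 := ha P hP x hx
    have h2 := hb P hP x hx
    change P (a x + b x) = a x + b x
    rw [map_add, h1, h2]
  algebraMap_mem' := fun r P hP x hx => by
    change P (r • x) = r • x
    rw [map_smul, hx]

/-- `Hom(L, 2)`: the lattice homomorphisms of `L` into the two element lattice (`true` is `1`,
`false` is `0`) which send `0` to `0` and `1` to `1`. -/
structure Hom2 (L : CSL H) where
  /-- the underlying map -/
  toFun : L.carrier → Bool
  map_zero : toFun ⟨0, L.zero_mem⟩ = false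
  map_one : toFun ⟨1, L.one_mem⟩ = true
  map_inf : ∀ P Q : L.carrier,
    toFun ⟨P * Q, L.inf_mem P P.2 Q Q.2⟩ = (toFun P && toFun Q)
  map_sup : ∀ P Q : L.carrier,
    toFun ⟨P + Q - P * Q, L.sup_mem P P.2 Q Q.2⟩ = (toFun P || toFun Q)

/-- The seminorm `‖T‖_φ = inf {‖E T E‖ : E an interval of L, φ(E) = 1}`; the intervals `E` with
`φ(E) = 1` are the `M₁ - M₂` with `M₂ ≤ M₁` in `L`, `φ(M₁) = 1` and `φ(M₂) = 0`. -/
noncomputable def seminormAt (L : CSL H) (φ : Hom2 L) (T : H →L[ℂ] H) : ℝ :=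
  sInf {r : ℝ | ∃ M₁ M₂ : L.carrier, (M₁ : H →L[ℂ] H) * M₂ = M₂ ∧ φ.toFun M₁ = true ∧
    φ.toFun M₂ = false ∧
    r = ‖((M₁ : H →L[ℂ] H) - (M₂ : H →L[ℂ] H)) * T * ((M₁ : H →L[ℂ] H) - (M₂ : H →L[ℂ] H))‖}

/-! ### translation to the helper files -/

/-- the same lattice for the helper files -/
def toHop (L : CSL H) : Hop.CSL H :=
  ⟨L.carrier, L.proj, L.comm, L.zero_mem, L.one_mem, L.inf_mem, L.sup_mem, L.sot_closed⟩

theorem AlgL_eq (L : CSL H) : AlgL L = Hop.algL (toHop L) := by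
  apply SetLike.ext
  intro T
  constructor
  · intro h P hP
    have hP' : P * P = P := Hop.mul_self_proj (L.proj P hP)
    ext x
    have h1 : P (P x) = P x := by
      have := congrArg (fun Z : H →L[ℂ] H => Z x) hP'
      exact this
    have h2 := h P hP (P x) h1
    change (1 - P) (T (P x)) = 0
    have h3 : (1 - P) (T (P x)) = T (P x) - P (T (P x)) := rfl
    rw [h3, h2, sub_self]
  · intro h P hP x hx
    have h1 : (1 - P) * T * P = 0 := h P hP
    have h2 := congrArg (fun Z : H →L[ℂ] H => Z x) h1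
    have h3 : T (P x) - P (T (P x)) = 0 := h2
    rw [hx] at h3
    exact (sub_eq_zero.mp h3).symm

/-- if the predicate `ψ` restricts to `φ`, the two seminorms agree -/
theorem seminorm_eq (L : CSL H) (φ : Hom2 L) (ψ : (H →L[ℂ] H) → Prop)
    (h : ∀ P : L.carrier, ψ P ↔ φ.toFun P = true) (T : H →L[ℂ] H) :
    Hop.phiNorm (toHop L) ψ T = seminormAt L φ T := by
  unfold Hop.phiNorm seminormAt
  congr 1
  ext r
  constructor
  · rintro ⟨E, ⟨M₁, h₁, M₂, h₂, h12, hf1, hf2, rfl⟩, rfl⟩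
    refine ⟨⟨M₁, h₁⟩, ⟨M₂, h₂⟩, ?_, (h ⟨M₁, h₁⟩).mp hf1, ?_, rfl⟩
    · change M₁ * M₂ = M₂
      rw [L.comm M₁ h₁ M₂ h₂]; exact h12
    · rw [← Bool.not_eq_true]
      exact fun h3 => hf2 ((h ⟨M₂, h₂⟩).mpr h3)
  · rintro ⟨M₁, M₂, h12, hf1, hf2, rfl⟩
    refine ⟨_, ⟨M₁, M₁.2, M₂, M₂.2, ?_, (h M₁).mpr hf1, ?_, rfl⟩, rfl⟩
    · rw [← L.comm M₁ M₁.2 M₂ M₂.2]; exact h12
    · rw [h M₂, hf2]; simp

/-- **Hopenwasser's conjecture.**  For every commutative subspace lattice `L` on a complex Hilbert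
space, an operator `T` in `Alg L` lies in the Jacobson radical of `Alg L` if and only if
`‖T‖_φ = 0` for every `φ` in `Hom(L, 2)`. -/
theorem result (L : CSL H) (T : AlgL L) :
    T ∈ Ring.jacobson (AlgL L) ↔ ∀ φ : Hom2 L, seminormAt L φ (T : H →L[ℂ] H) = 0 := by
  have key : ∀ (A : Subalgebra ℂ (H →L[ℂ] H)) (_ : A = Hop.algL (toHop L)) (T : A),
      T ∈ Ring.jacobson A ↔
        ∀ φ, Hop.IsHom2 (toHop L) φ → Hop.phiNorm (toHop L) φ (T : H →L[ℂ] H) = 0 := by
    intro A hA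
    subst hA
    exact Hop.result (toHop L)
  rw [key (AlgL L) (AlgL_eq L) T]
  constructor
  · intro h φ
    have hψ : ∀ P : L.carrier,
        (∃ h : (P : H →L[ℂ] H) ∈ L.carrier, φ.toFun ⟨P, h⟩ = true) ↔ φ.toFun P = true :=
      fun P => ⟨fun ⟨_, h⟩ => h, fun h => ⟨P.2, h⟩⟩
    rw [← seminorm_eq L φ (fun P => ∃ h : P ∈ L.carrier, φ.toFun ⟨P, h⟩ = true) hψ]
    apply h
    refine ⟨⟨L.one_mem, φ.map_one⟩, ?_, ?_, ?_⟩
    · rintro ⟨h1, h2⟩
      rw [φ.map_zero] at h2
      exact Bool.false_ne_true h2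
    · intro P hP Q hQ
      have h1 := hψ ⟨P * Q, L.inf_mem P hP Q hQ⟩
      have h2 := hψ ⟨P, hP⟩
      have h3 := hψ ⟨Q, hQ⟩
      have h4 := φ.map_inf ⟨P, hP⟩ ⟨Q, hQ⟩
      simp only at h1 h2 h3 h4
      rw [h1, h2, h3, h4, Bool.and_eq_true]
    · intro P hP Q hQ
      have h1 := hψ ⟨P + Q - P * Q, L.sup_mem P hP Q hQ⟩
      have h2 := hψ ⟨P, hP⟩
      have h3 := hψ ⟨Q, hQ⟩
      have h4 := φ.map_sup ⟨P, hP⟩ ⟨Q, hQ⟩
      simp only at h1 h2 h3 h4
      rw [h1, h2, h3, h4, Bool.or_eq_true]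
  · intro h ψ hψ
    classical
    let φ : Hom2 L :=
      { toFun := fun P => decide (ψ P)
        map_zero := decide_eq_false hψ.zero
        map_one := decide_eq_true hψ.one
        map_inf := fun P Q => by
          have := hψ.inf P P.2 Q Q.2
          simp only [← Bool.decide_and, this]
        map_sup := fun P Q => by
          have := hψ.sup P P.2 Q Q.2
          simp only [← Bool.decide_or, this] }
    rw [seminorm_eq L φ ψ (fun P => by simp [φ])]
    exact h φ

end Pool.Agent.Results.MP_b027ec_an.JacobsonRadicalHom
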